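import Pool.Agent.helper96.S5.SpecR

/-!
# MP_0b485e_lc, level 5, row DIS: every element is in at most one piece
-/

set_option autoImplicit false

namespace S5

open PF

theorem DIS_snd (B : BD) (k j u : ℕ) (h : B.asg k u = j + 1) :
    B.pA k u (hst (B.pA k) u) j ∧ B.prc k u := by
  have h1 : B.pA k u (hst (B.pA k) u) j := sel_succ h
  exact ⟨h1, h1.2.2.1.1.1⟩

theorem DIS_row : DIS_stmt := by
  intro B k
  refine ⟨?_, fun j u h => DIS_snd B k j u h⟩
  intro j j' t s s' h h'
  have h1 := (DIS_snd B k j _ h).2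
  have h2 := (DIS_snd B k j' _ h').2
  unfold BD.prc at h1 h2
  simp only [Nat.unpair_pair] at h1 h2
  have hs : s = s' := by
    rcases lt_trichotomy s s' with h3 | h3 | h3
    · exact absurd h1.1 (h2.2 s h3)
    · exact h3
    · exact absurd h2.1 (h1.2 s' h3)
  refine ⟨hs, ?_⟩
  rw [hs, h'] at h
  exact (Nat.succ_injective h).symm

end S5
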