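import Pool.Agent.helper96.S5.SpecR

/-!
# MP_0b485e_lc, level 5, row DMW: dump events
-/

set_option autoImplicit false

namespace S5

open PF

/-- an unbounded monotone sequence increases infinitely often -/
theorem DMW_inc {f : ℕ → ℕ} (hf : ∀ s, f s ≤ f (s + 1)) (h : ∀ z, ∃ s, z < f s) (u0 : ℕ) :
    ∃ u, u0 ≤ u ∧ f u < f (u + 1) := by
  by_contra hc
  have h1 : ∀ u, u0 ≤ u → f u ≤ f u0 := by
    intro u hu
    induction u, hu using Nat.le_induction with
    | base => exact le_rfl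
    | succ u hu ih =>
      have h2 : ¬ f u < f (u + 1) := fun h3 => hc ⟨u, hu, h3⟩
      exact (not_lt.1 h2).trans ih
  obtain ⟨s, hs⟩ := h (f u0)
  have hm : Monotone f := monotone_nat_of_le_succ hf
  rcases le_total u0 s with h3 | h3
  · exact absurd hs (not_lt.2 (h1 s h3))
  · exact absurd hs (not_lt.2 (hm h3))

/-- a bounded monotone sequence increases finitely often -/
theorem DMW_fin {f : ℕ → ℕ} (hf : ∀ s, f s ≤ f (s + 1)) (z : ℕ) (h : ∀ s, f s ≤ z) :
    ∃ u0, ∀ u, u0 ≤ u → ¬ f u < f (u + 1) := by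
  by_contra hc
  have h1 : ∀ u0, ∃ u, u0 ≤ u ∧ f u < f (u + 1) := by
    intro u0
    by_contra h2
    exact hc ⟨u0, fun u hu h3 => h2 ⟨u, hu, h3⟩⟩
  have hm : Monotone f := monotone_nat_of_le_succ hf
  have h2 : ∀ c, ∃ u, c ≤ f u := by
    intro c
    induction c with
    | zero => exact ⟨0, Nat.zero_le _⟩
    | succ c ih =>
      obtain ⟨u, hu⟩ := ih
      obtain ⟨u', hu', h3⟩ := h1 u
      exact ⟨u' + 1, Nat.succ_le_of_lt (lt_of_le_of_lt (hu.trans (hm hu')) h3)⟩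
  obtain ⟨u, hu⟩ := h2 (z + 1)
  exact absurd (hu.trans (h u)) (Nat.not_succ_le_self z)

/-- finitely many conditions -/
theorem DMW_all {Q : ℕ → ℕ → Prop} (n : ℕ) (h : ∀ i < n, ∃ u0, ∀ u, u0 ≤ u → Q i u) :
    ∃ u0, ∀ i < n, ∀ u, u0 ≤ u → Q i u := by
  induction n with
  | zero => exact ⟨0, fun i hi => absurd hi (Nat.not_lt_zero i)⟩
  | succ n ih =>
    obtain ⟨u0, h0⟩ := ih fun i hi => h i (Nat.lt_succ_of_lt hi)
    obtain ⟨u1, h1⟩ := h n (Nat.lt_succ_self n)
    refine ⟨max u0 u1, fun i hi u hu => ?_⟩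
    rcases Nat.lt_succ_iff_lt_or_eq.1 hi with h2 | h2
    · exact h0 i h2 u ((le_max_left _ _).trans hu)
    · rw [h2]
      exact h1 u ((le_max_right _ _).trans hu)

theorem DMW_row (hDIS : DIS_stmt) : DMW_stmt := by
  intro B k hG j
  constructor
  · rintro ⟨h1, -, ⟨u1, h3⟩⟩
    have h4 : ∀ i < (pcc j).1.length, ∃ u0, ∀ u, u0 ≤ u →
        ¬ (ent (pcc j).1 i = 0 ∧ B.cn i k u < B.cn i k (u + 1)) := by
      intro i hi
      by_cases he : ent (pcc j).1 i = 0
      · have hC : ¬ B.C i k := fun hC => (h1 i hi).2 hC he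
        unfold BD.C at hC
        obtain ⟨z, hz⟩ := not_forall.1 hC
        obtain ⟨u0, hu0⟩ := DMW_fin (hG.mono i) z
          (fun s => not_lt.1 (fun h5 => hz ⟨s, h5⟩))
        exact ⟨u0, fun u hu h6 => hu0 u hu h6.2⟩
      · exact ⟨0, fun u _ h6 => he h6.1⟩
    obtain ⟨u0, hu0⟩ := DMW_all _ h4
    refine ⟨max u0 u1, fun u hu h => ?_⟩
    rcases h with ⟨i, hi, h6⟩ | h
    · exact hu0 i hi u ((le_max_left _ _).trans hu) h6
    · exact h3 u ((le_max_right _ _).trans hu) h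
  · intro hR
    by_cases h1 : ∀ i < (pcc j).1.length, (ent (pcc j).1 i ≠ 0 ↔ B.C i k)
    · by_cases h2 : ∀ u0, ∃ u, u0 ≤ u ∧ B.fit k u (pcc j).1 (pcc j).2.1
      · right
        intro u0
        by_contra h4
        apply hR
        refine ⟨h1, h2, u0, fun u hu h5 => h4 ⟨u, hu, Or.inr h5⟩⟩
      · left
        obtain ⟨u0, hu0⟩ := not_forall.1 h2
        refine ⟨u0, fun u hu h5 => hu0 ⟨u, hu, ?_⟩⟩
        exact ((hDIS B k).2 j u h5).1.2.2.1
    · obtain ⟨i, hi⟩ := not_forall.1 h1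
      obtain ⟨hi1, hi2⟩ := Classical.not_imp.1 hi
      by_cases he : ent (pcc j).1 i = 0
      · right
        have hC : B.C i k := by
          by_contra hC
          exact hi2 ⟨fun h => absurd he h, fun h => absurd h hC⟩
        intro u0
        obtain ⟨u, hu, h5⟩ := DMW_inc (hG.mono i) hC u0
        exact ⟨u, hu, Or.inl ⟨i, hi1, he, h5⟩⟩
      · left
        have hC : ¬ B.C i k := fun hC => hi2 ⟨fun _ => hC, fun _ => he⟩
        unfold BD.C at hC
        obtain ⟨z, hz⟩ := not_forall.1 hC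
        by_contra hc
        have h5 : ∀ t0, ∃ t, t0 ≤ t ∧ sel (B.pA k) t = j + 1 := by
          intro t0
          by_contra h6
          exact hc ⟨t0, fun u hu h7 => h6 ⟨u, hu, h7⟩⟩
        obtain ⟨t, ht⟩ := hst_count_unb (B.pA k) (j + 1) h5 z
        obtain ⟨u, hu, h7⟩ := h5 t
        have h8 := ((hDIS B k).2 j u h7).1.2.2.2.2 i hi1 he
        have h9 : (hst (B.pA k) t).count (j + 1) ≤ (hst (B.pA k) u).count (j + 1) :=
          hst_count_mono (B.pA k) (j + 1) hu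
        exact hz ⟨u, lt_of_le_of_lt (ht.trans h9) h8⟩

end S5
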