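import Pool.Agent.helper96.S5.SpecR

/-!
# MP_0b485e_lc, level 5, row LQI: only the relevant conditions matter
-/

set_option autoImplicit false

namespace S5

open PF

theorem LQI_VV {tt tt' : ℕ → Prop} (h : ∀ b j y, tt (pI b j y) ↔ tt' (pI b j y)) (s z : ℕ) :
    VV tt s z = VV tt' s z := by
  have h1 : (fun b => UI tt b z) = fun b => UI tt' b z :=
    funext fun b => propext (exists_congr fun y => h b z y)
  unfold VV
  rw [h1]

theorem LQI_lqc {tt tt' : ℕ → Prop} (h : ∀ b j y, tt (pI b j y) ↔ tt' (pI b j y))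
    (hN : ∀ z, tt (pN z) ↔ tt' (pN z)) (s prev : ℕ) : lqc tt s prev = lqc tt' s prev := by
  unfold lqc
  refine lst_congr fun z => ?_
  rw [hN z]
  refine and_congr Iff.rfl (forall_congr' fun z' => ?_)
  rw [hN z', LQI_VV h, LQI_VV h]

theorem LQI_row : LQI_stmt := by
  intro tt tt' h hN s
  induction s with
  | zero => exact LQI_lqc h hN 0 0
  | succ s ih =>
    show lqc tt (s + 1) (lq tt s + 1) = lqc tt' (s + 1) (lq tt' s + 1)
    rw [ih, LQI_lqc h hN]

end S5
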