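import Pool.Agent.helper96.S5.SpecR

/-!
# MP_0b485e_lc, level 5, row LQM: computability of the approximations
-/

set_option autoImplicit false

namespace S5

open PF

/-- the truth assignment given by a list -/
def LQM_t (g : List ℕ) (i : ℕ) : Prop := ent g i ≠ 0

theorem LQM_lt {g : List ℕ} {i : ℕ} (h : LQM_t g i) : i < g.length := by
  by_contra hc
  apply h
  unfold ent
  exact List.getD_eq_default _ _ (not_lt.1 hc)

theorem LQM_pair {α : Type} [Primcodable α] {f g : α → ℕ} (hf : Computable f) (hg : Computable g) :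
    Computable fun a => Nat.pair (f a) (g a) := Primrec₂.natPair.to_comp.comp hf hg

theorem LQM_tc {α : Type} [Primcodable α] {g : α → List ℕ} {f : α → ℕ} (hg : Computable g)
    (hf : Computable f) : ComputablePred fun a => LQM_t (g a) (f a) :=
  cp_not (cp_eq (ent_computable.comp (hg.pair hf)) (Computable.const 0))

theorem LQM_pI {α : Type} [Primcodable α] {b j y : α → ℕ} (hb : Computable b) (hj : Computable j)
    (hy : Computable y) : Computable fun a => pI (b a) (j a) (y a) :=
  LQM_pair (Computable.const 2) (LQM_pair hb (LQM_pair hj hy))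

theorem LQM_pN {α : Type} [Primcodable α] {j : α → ℕ} (hj : Computable j) :
    Computable fun a => pN (j a) := LQM_pair (Computable.const 3) hj

theorem LQM_le_pI (b j y : ℕ) : y ≤ pI b j y := by
  unfold pI
  exact (Nat.right_le_pair _ _).trans ((Nat.right_le_pair _ _).trans (Nat.right_le_pair _ _))

theorem LQM_le_pN (j : ℕ) : j ≤ pN j := Nat.right_le_pair _ _

theorem LQM_UI : ComputablePred fun x : List ℕ × ℕ × ℕ => UI (LQM_t x.1) x.2.1 x.2.2 := by
  have h1 : ComputablePred fun x : List ℕ × ℕ × ℕ => ∃ y < x.1.length,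
      LQM_t x.1 (pI x.2.1 x.2.2 y) := by
    refine cp_bex (p := fun (x : List ℕ × ℕ × ℕ) y => LQM_t x.1 (pI x.2.1 x.2.2 y))
      (g := fun x => x.1.length) ?_ (Computable.list_length.comp Computable.fst)
    exact LQM_tc (Computable.fst.comp Computable.fst)
      (LQM_pI (Computable.fst.comp (Computable.snd.comp Computable.fst))
        (Computable.snd.comp (Computable.snd.comp Computable.fst)) Computable.snd)
  refine h1.of_eq fun x => ?_
  constructor
  · rintro ⟨y, -, hy⟩
    exact ⟨y, hy⟩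
  · rintro ⟨y, hy⟩
    exact ⟨y, lt_of_le_of_lt (LQM_le_pI _ _ _) (LQM_lt hy), hy⟩

theorem LQM_VV : Computable fun x : List ℕ × ℕ × ℕ => VV (LQM_t x.1) x.2.1 x.2.2 := by
  classical
  have hh : Computable₂ (fun (x : List ℕ × ℕ × ℕ) (q : ℕ × ℕ) =>
      2 * q.2 + if UI (LQM_t x.1) q.1 x.2.2 then 1 else 0) := by
    have h1 : Computable fun z : (List ℕ × ℕ × ℕ) × (ℕ × ℕ) => 2 * z.2.2 :=
      Primrec.nat_mul.to_comp.comp (Computable.const 2) (Computable.snd.comp Computable.snd)
    have h2 : ComputablePred fun z : (List ℕ × ℕ × ℕ) × (ℕ × ℕ) =>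
        UI (LQM_t z.1.1) z.2.1 z.1.2.2 :=
      cp_comp (f := fun z : (List ℕ × ℕ × ℕ) × (ℕ × ℕ) => (z.1.1, z.2.1, z.1.2.2))
        ((Computable.fst.comp Computable.fst).pair ((Computable.fst.comp Computable.snd).pair
          (Computable.snd.comp (Computable.snd.comp Computable.fst)))) LQM_UI
    have h3 : Computable fun z : (List ℕ × ℕ × ℕ) × (ℕ × ℕ) =>
        if UI (LQM_t z.1.1) z.2.1 z.1.2.2 then 1 else 0 := by
      refine (cp_ite h2 (Computable.const 1) (Computable.const 0)).of_eq fun z => ?_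
      by_cases h : UI (LQM_t z.1.1) z.2.1 z.1.2.2
      · simp only [if_pos h]
      · simp only [if_neg h]
    exact Primrec.nat_add.to_comp.comp h1 h3
  refine (Computable.nat_rec (Computable.fst.comp Computable.snd)
    (Computable.const 0) hh).of_eq fun x => ?_
  unfold VV
  induction x.2.1 with
  | zero => rfl
  | succ n ih =>
    simp only at ih ⊢
    rw [ih]
    show _ = 2 * bv (fun b => UI (LQM_t x.1) b x.2.2) n + _
    by_cases h : UI (LQM_t x.1) n x.2.2
    · simp only [if_pos h]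
    · simp only [if_neg h]

theorem LQM_lqc : Computable fun x : List ℕ × ℕ × ℕ => lqc (LQM_t x.1) x.2.1 x.2.2 := by
  have hVV : ∀ {α : Type} [Primcodable α] {g : α → List ℕ} {s z : α → ℕ}, Computable g →
      Computable s → Computable z → Computable fun a => VV (LQM_t (g a)) (s a) (z a) := by
    intro α _ g s z hg hs hz
    exact LQM_VV.comp (hg.pair (hs.pair hz))
  unfold lqc
  refine cp_lst (Q := fun (x : List ℕ × ℕ × ℕ) z => (x.2.2 ≤ z ∧ LQM_t x.1 (pN z)) ∧
    ∀ z', x.2.2 ≤ z' → LQM_t x.1 (pN z') → VV (LQM_t x.1) x.2.1 z' ≤ VV (LQM_t x.1) x.2.1 z)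
    (b := fun x => x.1.length) ?_ (Computable.list_length.comp Computable.fst) ?_
  · have c1 : Computable fun y : (List ℕ × ℕ × ℕ) × ℕ => y.1.1 :=
      Computable.fst.comp Computable.fst
    have c2 : Computable fun y : (List ℕ × ℕ × ℕ) × ℕ => y.1.2.1 :=
      Computable.fst.comp (Computable.snd.comp Computable.fst)
    have c3 : Computable fun y : (List ℕ × ℕ × ℕ) × ℕ => y.1.2.2 :=
      Computable.snd.comp (Computable.snd.comp Computable.fst)
    have c4 : Computable fun y : (List ℕ × ℕ × ℕ) × ℕ => y.2 := Computable.snd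
    have h1 : ComputablePred fun y : (List ℕ × ℕ × ℕ) × ℕ =>
        y.1.2.2 ≤ y.2 ∧ LQM_t y.1.1 (pN y.2) :=
      cp_and (cp_le c3 c4) (LQM_tc c1 (LQM_pN c4))
    have h2 : ComputablePred fun y : (List ℕ × ℕ × ℕ) × ℕ => ∀ z' < y.1.1.length,
        (¬ y.1.2.2 ≤ z' ∨ ¬ LQM_t y.1.1 (pN z')) ∨
          VV (LQM_t y.1.1) y.1.2.1 z' ≤ VV (LQM_t y.1.1) y.1.2.1 y.2 := by
      refine cp_ball (p := fun (y : (List ℕ × ℕ × ℕ) × ℕ) z' =>
        (¬ y.1.2.2 ≤ z' ∨ ¬ LQM_t y.1.1 (pN z')) ∨
          VV (LQM_t y.1.1) y.1.2.1 z' ≤ VV (LQM_t y.1.1) y.1.2.1 y.2)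
        (g := fun y => y.1.1.length) ?_ (Computable.list_length.comp c1)
      refine cp_or (cp_or (cp_not (cp_le (c3.comp Computable.fst) Computable.snd))
        (cp_not (LQM_tc (c1.comp Computable.fst) (LQM_pN Computable.snd)))) ?_
      exact cp_le (hVV (c1.comp Computable.fst) (c2.comp Computable.fst) Computable.snd)
        (hVV (c1.comp Computable.fst) (c2.comp Computable.fst) (c4.comp Computable.fst))
    refine (cp_and h1 h2).of_eq fun y => ?_
    refine and_congr Iff.rfl ⟨fun h z' hz1 hz2 => ?_, fun h z' _ => ?_⟩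
    · rcases h z' (lt_of_le_of_lt (LQM_le_pN z') (LQM_lt hz2)) with (h3 | h3) | h3
      · exact absurd hz1 h3
      · exact absurd hz2 h3
      · exact h3
    · by_cases h3 : y.1.2.2 ≤ z'
      · by_cases h4 : LQM_t y.1.1 (pN z')
        · exact Or.inr (h z' h3 h4)
        · exact Or.inl (Or.inr h4)
      · exact Or.inl (Or.inl h3)
  · rintro x ⟨z, hz⟩
    exact ⟨z, ((LQM_le_pN z).trans (LQM_lt hz.1.2).le), hz⟩

theorem LQM_lq : Computable fun x : List ℕ × ℕ => lq (LQM_t x.1) x.2 := by
  have hh : Computable₂ (fun (x : List ℕ × ℕ) (q : ℕ × ℕ) =>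
      lqc (LQM_t x.1) (q.1 + 1) (q.2 + 1)) :=
    LQM_lqc.comp (g := fun z : (List ℕ × ℕ) × (ℕ × ℕ) => (z.1.1, z.2.1 + 1, z.2.2 + 1))
      ((Computable.fst.comp Computable.fst).pair
        ((Computable.succ.comp (Computable.fst.comp Computable.snd)).pair
          (Computable.succ.comp (Computable.snd.comp Computable.snd))))
  have h0 : Computable fun x : List ℕ × ℕ => lqc (LQM_t x.1) 0 0 :=
    LQM_lqc.comp (g := fun z : List ℕ × ℕ => (z.1, 0, 0))
      (Computable.fst.pair ((Computable.const 0).pair (Computable.const 0)))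
  refine (Computable.nat_rec Computable.snd h0 hh).of_eq fun x => ?_
  induction x.2 with
  | zero => rfl
  | succ n ih =>
    simp only at ih ⊢
    rw [ih]
    rfl

theorem LQM_row : LQM_stmt := LQM_lq

end S5
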