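import Pool.Agent.helper96.S5.SpecR

/-!
# MP_0b485e_lc, level 5, row S3U: an index in the list of the level 3 sets
-/

set_option autoImplicit false

namespace S5

open PF

/-- decoding of lists -/
def S3U_dec (n : ℕ) : List ℕ := (Encodable.decode (α := List ℕ) n).getD []

theorem S3U_dec_computable : Computable S3U_dec :=
  (Primrec.option_getD.comp Primrec.decode (Primrec.const ([] : List ℕ))).to_comp

theorem S3U_dec_encode (g : List ℕ) : S3U_dec (Encodable.encode g) = g := by
  unfold S3U_dec
  rw [Encodable.encodek]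
  rfl

theorem S3U_pre {α : Type} [Primcodable α] (g0 : List ℕ) {g : α → List ℕ} (hg : Computable g) :
    ComputablePred fun a => g0 <+: g a := by
  have h1 : ComputablePred fun a => ∀ i < g0.length, (g a)[i]? = g0[i]? := by
    refine cp_ball (p := fun a i => (g a)[i]? = g0[i]?) (g := fun _ => g0.length) ?_
      (Computable.const _)
    exact cp_eq (Computable.list_getElem?.comp (hg.comp Computable.fst) Computable.snd)
      (Computable.list_getElem?.comp (Computable.const g0) Computable.snd)
  refine h1.of_eq fun a => ?_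
  rw [List.prefix_iff_getElem?]
  constructor
  · intro h i hi
    rw [h i hi, List.getElem?_eq_getElem hi]
  · intro h i hi
    rw [h i hi, List.getElem?_eq_getElem hi]

theorem S3U_row (hRS3 : RS3_stmt) : S3U_stmt := by
  intro B hB hl l g0
  obtain ⟨Φ, hΦ, hRS⟩ := hRS3 B hB hl
  have hy : Computable fun z : ℕ => z.unpair.2.unpair.1 :=
    Computable.fst.comp (Computable.unpair.comp (Computable.snd.comp Computable.unpair))
  have hy' : Computable fun z : ℕ => z.unpair.2.unpair.2 :=
    Computable.snd.comp (Computable.unpair.comp (Computable.snd.comp Computable.unpair))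
  have hk : Computable fun z : ℕ => z.unpair.1 := Computable.fst.comp Computable.unpair
  have hg : Computable fun z : ℕ => S3U_dec z.unpair.2.unpair.1.unpair.1 :=
    S3U_dec_computable.comp (Computable.fst.comp (Computable.unpair.comp hy))
  have hw : Computable fun z : ℕ => z.unpair.2.unpair.1.unpair.2 :=
    Computable.snd.comp (Computable.unpair.comp hy)
  have hP : REPred fun z : ℕ => g0 <+: S3U_dec z.unpair.2.unpair.1.unpair.1 ∧
      Φ ((z.unpair.1, S3U_dec z.unpair.2.unpair.1.unpair.1, l),
        (z.unpair.2.unpair.1.unpair.2, z.unpair.2.unpair.2)) := by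
    refine re_and (S3U_pre g0 hg).to_re ?_
    exact re_comp (f := fun z : ℕ => ((z.unpair.1, S3U_dec z.unpair.2.unpair.1.unpair.1, l),
        (z.unpair.2.unpair.1.unpair.2, z.unpair.2.unpair.2)))
      ((hk.pair (hg.pair (Computable.const l))).pair (hw.pair hy')) hΦ
  obtain ⟨b, hb⟩ := We_surj hP
  refine ⟨b, fun k => ?_⟩
  constructor
  · rintro ⟨g, hRSg, hgp⟩
    obtain ⟨w, hw'⟩ := (hRS k g l).1 hRSg
    refine ⟨Nat.pair (Encodable.encode g) w, fun y' => ?_⟩
    rw [hb]
    simp only [Nat.unpair_pair, S3U_dec_encode]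
    exact ⟨hgp, hw' y'⟩
  · rintro ⟨y, hy1⟩
    have h2 : ∀ y', g0 <+: S3U_dec y.unpair.1 ∧
        Φ ((k, S3U_dec y.unpair.1, l), (y.unpair.2, y')) := by
      intro y'
      have h3 := (hb _).1 (hy1 y')
      simp only [Nat.unpair_pair] at h3
      exact h3
    exact ⟨S3U_dec y.unpair.1, (hRS k _ l).2 ⟨y.unpair.2, fun y' => (h2 y').2⟩, (h2 0).1⟩

end S5
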