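import Pool.Agent.helper96.S5.SpecL

/-!
# MP_0b485e_lc, level 5, row SBX: the matrix of the sentence
-/

set_option autoImplicit false

namespace S5

open PF

section

variable {L : Type} [Lattice L] [BoundedOrder L]

theorem SBX_vb (N i : ℕ) (f : ℕ → L) : (vb N i).ev f = if i < N then f i else ⊥ := by
  unfold vb
  split_ifs <;> rfl

theorem SBX_tsb (N : ℕ) (f : ℕ → L) (t : Tm) :
    (tsb N t).ev f = t.ev (fun i => if i < N then f i else ⊥) := by
  induction t with
  | var i => exact SBX_vb N i f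
  | bot => rfl
  | top => rfl
  | sup a b iha ihb =>
    show (tsb N a).ev f ⊔ (tsb N b).ev f = _
    rw [iha, ihb]
    rfl
  | inf a b iha ihb =>
    show (tsb N a).ev f ⊓ (tsb N b).ev f = _
    rw [iha, ihb]
    rfl

theorem SBX_fsb (N : ℕ) (f : ℕ → L) (φ : Fm) :
    (fsb N φ).Holds f ↔ φ.Holds (fun i => if i < N then f i else ⊥) := by
  induction φ with
  | eq a b =>
    show (tsb N a).ev f = (tsb N b).ev f ↔ _
    rw [SBX_tsb, SBX_tsb]
    exact Iff.rfl
  | neg a ih => exact not_congr ih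
  | and a b iha ihb => exact and_congr iha ihb
  | or a b iha ihb => exact or_congr iha ihb

theorem SBX_tr (f : ℕ → L) : trF.Holds f := rfl

theorem SBX_an (f : ℕ → L) (l : List Fm) : (anL l).Holds f ↔ ∀ φ ∈ l, φ.Holds f := by
  induction l with
  | nil => exact ⟨fun _ φ h => absurd h List.not_mem_nil, fun _ => SBX_tr f⟩
  | cons a l ih =>
    show a.Holds f ∧ (anL l).Holds f ↔ _
    rw [ih, List.forall_mem_cons]

theorem SBX_or (f : ℕ → L) (l : List Fm) : (orL l).Holds f ↔ ∃ φ ∈ l, φ.Holds f := by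
  induction l with
  | nil =>
    constructor
    · intro h
      exact absurd (SBX_tr f) h
    · rintro ⟨φ, h, -⟩
      exact absurd h List.not_mem_nil
  | cons a l ih =>
    show a.Holds f ∨ (orL l).Holds f ↔ _
    rw [ih]
    constructor
    · rintro (h | ⟨φ, h1, h2⟩)
      · exact ⟨a, List.mem_cons_self, h⟩
      · exact ⟨φ, List.mem_cons_of_mem _ h1, h2⟩
    · rintro ⟨φ, h1, h2⟩
      rcases List.mem_cons.1 h1 with rfl | h1
      · exact Or.inl h2
      · exact Or.inr ⟨φ, h1, h2⟩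

theorem SBX_le (f : ℕ → L) (a b : Tm) : (leF a b).Holds f ↔ a.ev f ≤ b.ev f := by
  show a.ev f ⊔ b.ev f = b.ev f ↔ _
  exact sup_eq_right

theorem SBX_dF (N : ℕ) (gr : List At) (M : ℕ) (f : ℕ → L) (r i1 i2 i3 i4 : ℕ) :
    (dF N gr M r i1 i2 i3 i4).Holds f ↔ dl gr M (fun i => f (N + i)) r
      (if i1 < N then f i1 else ⊥) (if i2 < N then f i2 else ⊥)
      (if i3 < N then f i3 else ⊥) (if i4 < N then f i4 else ⊥) := by
  cases r with
  | zero =>
    show (anL _).Holds f ↔ _
    rw [SBX_an]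
    constructor
    · intro h a ha
      have h1 := h _ (List.mem_map.2 ⟨a, ha, rfl⟩)
      have h2 := (SBX_le f _ _).1 h1.1
      have h3 := (SBX_le f _ _).1 h1.2
      rw [SBX_vb] at h2 h3
      exact ⟨h2, h3⟩
    · intro h φ hφ
      obtain ⟨a, ha, rfl⟩ := List.mem_map.1 hφ
      obtain ⟨h2, h3⟩ := h a ha
      refine ⟨(SBX_le f _ _).2 ?_, (SBX_le f _ _).2 ?_⟩
      · rw [SBX_vb]
        exact h2
      · rw [SBX_vb]
        exact h3
  | succ r =>
    show (orL _).Holds f ↔ _
    rw [SBX_or]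
    constructor
    · rintro ⟨φ, hφ, h⟩
      obtain ⟨a, ha, rfl⟩ := List.mem_map.1 hφ
      by_cases har : a.1 = r
      · rw [if_pos har] at h
        obtain ⟨⟨h1, h2⟩, h3, h4⟩ := h
        refine ⟨a, ha, har, ⟨?_, ?_⟩, ?_, ?_⟩
        · exact (SBX_vb N i1 f).symm.trans h1
        · exact (SBX_vb N i2 f).symm.trans h2
        · exact (SBX_vb N i3 f).symm.trans h3
        · exact (SBX_vb N i4 f).symm.trans h4
      · rw [if_neg har] at h
        exact absurd (SBX_tr f) h
    · rintro ⟨a, ha, har, ⟨h1, h2⟩, h3, h4⟩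
      refine ⟨_, List.mem_map.2 ⟨a, ha, rfl⟩, ?_⟩
      rw [if_pos har]
      refine ⟨⟨?_, ?_⟩, ?_, ?_⟩
      · exact (SBX_vb N i1 f).trans h1
      · exact (SBX_vb N i2 f).trans h2
      · exact (SBX_vb N i3 f).trans h3
      · exact (SBX_vb N i4 f).trans h4

end

theorem SBX_row : SBX_stmt := by
  intro L _ _ N gr M μ f
  induction μ with
  | fm φ => exact SBX_fsb N f φ
  | rl r i1 i2 i3 i4 => exact SBX_dF N gr M f r i1 i2 i3 i4
  | neg a ih => exact not_congr ih
  | and a b iha ihb => exact and_congr iha ihb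
  | or a b iha ihb => exact or_congr iha ihb

end S5
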